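import Pool.Agent.Helper23.EC.EGoals

set_option autoImplicit false

open MeasureTheory Filter Topology Set

namespace Pool.Agent.Helper17.EC.E_ED1

open EC237

/-- real part of `(u)/M + S/M^2` -/
theorem re_core (z m B u sr si : ℝ) (hm : m ≠ 0) :
    ((u:ℂ) / ((m:ℂ) + Complex.I * (B:ℂ) * z)
      + ((sr:ℂ) + Complex.I * (si:ℂ)) / ((m:ℂ) + Complex.I * (B:ℂ) * z) ^ 2).re
      = u * (m / (m ^ 2 + B ^ 2 * z ^ 2))
        + sr * ((m ^ 2 - B ^ 2 * z ^ 2) / (m ^ 2 + B ^ 2 * z ^ 2) ^ 2)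
        + si * (2 * m * B * z / (m ^ 2 + B ^ 2 * z ^ 2) ^ 2) := by
  have hQ : m ^ 2 + B ^ 2 * z ^ 2 ≠ 0 := by positivity
  have hQc : ((m ^ 2 + B ^ 2 * z ^ 2 : ℝ) : ℂ) ≠ 0 := by exact_mod_cast hQ
  have hprod : ((m:ℂ) + Complex.I * (B:ℂ) * z) * ((m:ℂ) - Complex.I * (B:ℂ) * z)
      = ((m ^ 2 + B ^ 2 * z ^ 2 : ℝ) : ℂ) := by
    push_cast
    linear_combination (-(B:ℂ) ^ 2 * (z:ℂ) ^ 2) * Complex.I_sq
  have hM : (m:ℂ) + Complex.I * (B:ℂ) * z ≠ 0 := by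
    intro h
    rw [h, zero_mul] at hprod
    exact hQc hprod.symm
  have hinv : ((m:ℂ) + Complex.I * (B:ℂ) * z)⁻¹
      = ((m / (m ^ 2 + B ^ 2 * z ^ 2) : ℝ) : ℂ)
        - Complex.I * ((B * z / (m ^ 2 + B ^ 2 * z ^ 2) : ℝ) : ℂ) := by
    rw [inv_eq_iff_eq_inv, ← one_div, eq_div_iff_mul_eq]
    · have e : (((m / (m ^ 2 + B ^ 2 * z ^ 2) : ℝ) : ℂ)
          - Complex.I * ((B * z / (m ^ 2 + B ^ 2 * z ^ 2) : ℝ) : ℂ))
          = ((m:ℂ) - Complex.I * (B:ℂ) * z) / ((m ^ 2 + B ^ 2 * z ^ 2 : ℝ) : ℂ) := by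
        push_cast
        ring
      rw [e, mul_div_assoc', hprod, div_self hQc]
    · have e : (((m / (m ^ 2 + B ^ 2 * z ^ 2) : ℝ) : ℂ)
          - Complex.I * ((B * z / (m ^ 2 + B ^ 2 * z ^ 2) : ℝ) : ℂ))
          = ((m:ℂ) - Complex.I * (B:ℂ) * z) / ((m ^ 2 + B ^ 2 * z ^ 2 : ℝ) : ℂ) := by
        push_cast
        ring
      rw [e]
      refine div_ne_zero ?_ hQc
      intro h
      rw [h, mul_zero] at hprod
      exact hQc hprod.symm
  rw [div_eq_mul_inv, div_eq_mul_inv, ← inv_pow, hinv]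
  set α : ℝ := m / (m ^ 2 + B ^ 2 * z ^ 2) with hα
  set γ : ℝ := B * z / (m ^ 2 + B ^ 2 * z ^ 2) with hγ
  have e : (u:ℂ) * ((α:ℂ) - Complex.I * (γ:ℂ)) + ((sr:ℂ) + Complex.I * (si:ℂ)) *
      ((α:ℂ) - Complex.I * (γ:ℂ)) ^ 2 =
      ((u * α + sr * (α ^ 2 - γ ^ 2) + si * (2 * α * γ) : ℝ) : ℂ)
      + Complex.I * ((-(u * γ) + si * (α ^ 2 - γ ^ 2) - sr * (2 * α * γ) : ℝ) : ℂ) := by
    push_cast
    linear_combination ((sr:ℂ) * (γ:ℂ) ^ 2 + (si:ℂ) * (-2 * (α:ℂ) * (γ:ℂ)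
      + Complex.I * (γ:ℂ) ^ 2)) * Complex.I_sq
  rw [e]
  simp only [Complex.add_re, Complex.ofReal_re, Complex.mul_re, Complex.I_re, Complex.I_im,
    Complex.ofReal_im, zero_mul, mul_zero, sub_zero, add_zero]
  rw [hα, hγ]
  field_simp
  

theorem cot6 : Real.pi / 6 * (Real.cos (Real.pi * ((1:ℤ):ℝ) / 6) / Real.sin (Real.pi * ((1:ℤ):ℝ) / 6))
    = ew1 := by
  have h : Real.pi * ((1:ℤ):ℝ) / 6 = Real.pi / 6 := by
    push_cast
    ring
  rw [h, Real.cos_pi_div_six, Real.sin_pi_div_six]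
  unfold ew1
  ring

theorem sU_eq (n : ℤ) : sU 1 n = (((if n = 0 then ew1 else 0 : ℝ)) : ℂ)
    + Complex.I * ((Real.pi / 6 * ((n.sign : ℤ) : ℝ) : ℝ) : ℂ) := by
  unfold sU
  by_cases h : n = 0
  · rw [if_neg (by simpa using h), if_pos h, cot6, h]
    simp
  · rw [if_pos h, if_neg h]
    push_cast
    ring

theorem sV_eq (n : ℤ) : sV 1 n = (((if n = 0 then ew1 else 0 : ℝ)) : ℂ)
    - Complex.I * ((Real.pi / 6 * ((n.sign : ℤ) : ℝ) : ℝ) : ℂ) := by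
  unfold sV
  by_cases h : n = 0
  · rw [if_neg (by simpa using h), if_pos h, cot6, h]
    simp
  · rw [if_pos h, if_neg h]
    push_cast
    ring

/-- the sign part -/
noncomputable def hpart (z : ℝ) (k m n : ℤ) : ℝ :=
  2 * Real.pi / 3 * z ^ 4 * (m:ℝ) * ((((n.sign : ℤ) : ℝ) + (((n - k).sign : ℤ) : ℝ)) *
    (2 * (n:ℝ) - k) / ((m:ℝ) ^ 2 + (2 * (n:ℝ) - k) ^ 2 * z ^ 2) ^ 2)

theorem gY0_eq (z : ℝ) (k m n : ℤ) (hm : m ≠ 0) :
    gY0 z k m n = ((hpart z k m n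
      + (if n = 0 then -2 * z ^ 3 * (Real.pi ^ 2 / 9 * ((m:ℝ) / eD z (k, m))
        + ew1 * (((m:ℝ) ^ 2 - (k:ℝ) ^ 2 * z ^ 2) / eD z (k, m) ^ 2)) else 0)
      + (if n = k then -2 * z ^ 3 * (ew1 * (((m:ℝ) ^ 2 - (k:ℝ) ^ 2 * z ^ 2) / eD z (k, m) ^ 2))
        else 0) : ℝ) : ℂ) * Complex.I := by
  unfold gY0
  congr 2
  have hmr : (m:ℝ) ≠ 0 := by exact_mod_cast hm
  rw [sU_eq, sV_eq]
  set sr : ℝ := (if n = 0 then ew1 else 0) + (if k - n = 0 then ew1 else 0) with hsr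
  set si : ℝ := Real.pi / 6 * ((n.sign : ℤ) : ℝ) - Real.pi / 6 * (((k - n).sign : ℤ) : ℝ) with hsi
  set u : ℝ := if n = 0 then Real.pi ^ 2 / 9 else 0 with hu
  have hF : FX z 1 0 1 (MM z k m n)
      ((((if n = 0 then ew1 else 0 : ℝ)) : ℂ) + Complex.I * ((Real.pi / 6 * ((n.sign : ℤ) : ℝ) : ℝ) : ℂ)
        + ((((if k - n = 0 then ew1 else 0 : ℝ)) : ℂ)
          - Complex.I * ((Real.pi / 6 * (((k - n).sign : ℤ) : ℝ) : ℝ) : ℂ)))
      (if n = 0 then ((Real.pi ^ 2 / 9 : ℝ) : ℂ) else 0) 0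
      (if k - n = 0 then ((Real.pi ^ 2 / 9 : ℝ) : ℂ) else 0) 0
      = -(Complex.I * ((z ^ 3 : ℝ) : ℂ)) *
        ((u:ℂ) / ((m:ℂ) + Complex.I * ((k - 2 * n : ℝ) : ℂ) * z)
        + ((sr:ℂ) + Complex.I * (si:ℂ)) / ((m:ℂ) + Complex.I * ((k - 2 * n : ℝ) : ℂ) * z) ^ 2) := by
    have e1 : ((((if n = 0 then ew1 else 0 : ℝ)) : ℂ)
        + Complex.I * ((Real.pi / 6 * ((n.sign : ℤ) : ℝ) : ℝ) : ℂ)
        + ((((if k - n = 0 then ew1 else 0 : ℝ)) : ℂ)
          - Complex.I * ((Real.pi / 6 * (((k - n).sign : ℤ) : ℝ) : ℝ) : ℂ)))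
        = (sr:ℂ) + Complex.I * (si:ℂ) := by
      rw [hsr, hsi]
      push_cast
      ring
    have e2 : (if n = 0 then ((Real.pi ^ 2 / 9 : ℝ) : ℂ) else 0) = (u:ℂ) := by
      rw [hu]
      split_ifs
      · rfl
      · simp
    have e3 : MM z k m n = (m:ℂ) + Complex.I * ((k - 2 * n : ℝ) : ℂ) * z := by
      unfold MM
      push_cast
      ring
    rw [e1, e2, e3]
    unfold FX
    rw [if_neg (by norm_num), if_pos rfl]
    push_cast
    ring
  rw [hF]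
  have him : ∀ w : ℂ, (-(Complex.I * ((z ^ 3 : ℝ) : ℂ)) * w).im = -(z ^ 3 * w.re) := by
    intro w
    simp only [neg_mul, Complex.neg_im, Complex.mul_im, Complex.mul_re, Complex.I_re,
      Complex.I_im, Complex.ofReal_re, Complex.ofReal_im]
    ring
  have hmc : ((m:ℤ):ℂ) = (((m:ℝ)):ℂ) := by push_cast; rfl
  rw [him, hmc, re_core z m (k - 2 * n) u sr si hmr]
  have hQ : (m:ℝ) ^ 2 + ((k:ℝ) - 2 * n) ^ 2 * z ^ 2 = (m:ℝ) ^ 2 + (2 * (n:ℝ) - k) ^ 2 * z ^ 2 := by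
    ring
  rw [hQ]
  have hsgn : (((k - n).sign : ℤ) : ℝ) = -(((n - k).sign : ℤ) : ℝ) := by
    have : (k - n) = -(n - k) := by ring
    rw [this, Int.sign_neg]
    push_cast
    ring
  have hmain : ∀ Q : ℝ, 2 * (-(z ^ 3 * (si * (2 * (m:ℝ) * (k - 2 * n) * z / Q ^ 2))))
      = 2 * Real.pi / 3 * z ^ 4 * (m:ℝ) * ((((n.sign : ℤ) : ℝ) + (((n - k).sign : ℤ) : ℝ)) *
    (2 * (n:ℝ) - k) / Q ^ 2) := by
    intro Q
    rw [hsi, hsgn]
    ring
  have hrest : 2 * (-(z ^ 3 * (u * ((m:ℝ) / ((m:ℝ) ^ 2 + (2 * (n:ℝ) - k) ^ 2 * z ^ 2))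
      + sr * (((m:ℝ) ^ 2 - ((k:ℝ) - 2 * n) ^ 2 * z ^ 2) /
        ((m:ℝ) ^ 2 + (2 * (n:ℝ) - k) ^ 2 * z ^ 2) ^ 2)))) =
      (if n = 0 then -2 * z ^ 3 * (Real.pi ^ 2 / 9 * ((m:ℝ) / eD z (k, m))
        + ew1 * (((m:ℝ) ^ 2 - (k:ℝ) ^ 2 * z ^ 2) / eD z (k, m) ^ 2)) else 0)
      + (if n = k then -2 * z ^ 3 * (ew1 * (((m:ℝ) ^ 2 - (k:ℝ) ^ 2 * z ^ 2) / eD z (k, m) ^ 2))
        else 0) := by
    unfold eD
    simp only
    have hkn : (k - n = 0) ↔ (n = k) := by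
      constructor <;> intro h <;> omega
    rw [hsr, hu]
    simp only [hkn]
    by_cases h0 : n = 0
    · by_cases h1 : n = k
      · have hk : k = 0 := by omega
        rw [if_pos h0, if_pos h1, if_pos h0, if_pos h1, if_pos h0]
        rw [h0, hk]
        push_cast
        ring
      · rw [if_pos h0, if_neg h1, if_pos h0, if_neg h1, if_pos h0]
        rw [h0]
        push_cast
        ring_nf
    · by_cases h1 : n = k
      · rw [if_neg h0, if_pos h1, if_neg h0, if_pos h1, if_neg h0]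
        rw [h1]
        ring_nf
      · rw [if_neg h0, if_neg h1, if_neg h0, if_neg h1, if_neg h0]
        ring
  unfold hpart
  rw [← hmain]
  rw [add_assoc (2 * (-(z ^ 3 * (si * _)))), ← hrest]
  ring

/-- the `j`-th value of the sign part -/
noncomputable def aj (z : ℝ) (k m : ℤ) (j : ℕ) : ℝ :=
  4 * Real.pi / 3 * z ^ 4 * (m:ℝ) * ((if j = 0 then (1 / 2 : ℝ) else 1) *
    (|(k:ℝ)| + 2 * (j:ℝ)) / ((m:ℝ) ^ 2 + (|(k:ℝ)| + 2 * (j:ℝ)) ^ 2 * z ^ 2) ^ 2)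

theorem h_right (z : ℝ) (k m : ℤ) (j : ℕ) : hpart z k m (max k 0 + j) = aj z k m j := by
  unfold hpart aj
  have h1 : (2 * ((max k 0 + (j:ℤ) : ℤ) : ℝ) - k) = |(k:ℝ)| + 2 * (j:ℝ) := by
    rcases le_total 0 k with hk | hk
    · rw [max_eq_left hk, abs_of_nonneg (by exact_mod_cast hk)]
      push_cast
      ring
    · rw [max_eq_right hk, abs_of_nonpos (by exact_mod_cast hk)]
      push_cast
      ring
  rw [h1]
  rcases Nat.eq_zero_or_pos j with hj | hj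
  · subst hj
    simp only [Nat.cast_zero, add_zero, mul_zero, if_true]
    rcases lt_trichotomy 0 k with hk | hk | hk
    · rw [max_eq_left hk.le, Int.sign_eq_one_of_pos hk, sub_self, Int.sign_zero]
      push_cast
      ring
    · rw [← hk]
      simp
    · rw [max_eq_right hk.le, Int.sign_zero, zero_sub, Int.sign_eq_one_of_pos (by omega)]
      push_cast
      ring
  · have e1 : (max k 0 + (j:ℤ)).sign = 1 := Int.sign_eq_one_of_pos (by omega)
    have e2 : (max k 0 + (j:ℤ) - k).sign = 1 := Int.sign_eq_one_of_pos (by omega)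
    rw [e1, e2, if_neg (by omega)]
    push_cast
    ring

theorem h_left (z : ℝ) (k m : ℤ) (j : ℕ) : hpart z k m (min k 0 - j) = aj z k m j := by
  unfold hpart aj
  have h1 : (2 * ((min k 0 - (j:ℤ) : ℤ) : ℝ) - k) = -(|(k:ℝ)| + 2 * (j:ℝ)) := by
    rcases le_total 0 k with hk | hk
    · rw [min_eq_right hk, abs_of_nonneg (by exact_mod_cast hk)]
      push_cast
      ring
    · rw [min_eq_left hk, abs_of_nonpos (by exact_mod_cast hk)]
      push_cast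
      ring
  rw [h1, neg_sq]
  rcases Nat.eq_zero_or_pos j with hj | hj
  · subst hj
    simp only [Nat.cast_zero, add_zero, sub_zero, mul_zero, if_true]
    rcases lt_trichotomy 0 k with hk | hk | hk
    · rw [min_eq_right hk.le, Int.sign_zero, zero_sub, Int.sign_eq_neg_one_of_neg (by omega)]
      push_cast
      ring
    · rw [← hk]
      simp
    · rw [min_eq_left hk.le, Int.sign_eq_neg_one_of_neg hk, sub_self, Int.sign_zero]
      push_cast
      ring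
  · have e1 : (min k 0 - (j:ℤ)).sign = -1 := Int.sign_eq_neg_one_of_neg (by omega)
    have e2 : (min k 0 - (j:ℤ) - k).sign = -1 := Int.sign_eq_neg_one_of_neg (by omega)
    rw [e1, e2, if_neg (by omega)]
    push_cast
    ring

theorem h_mid (z : ℝ) (k m n : ℤ) (h1 : n < max k 0) (h2 : min k 0 < n) : hpart z k m n = 0 := by
  unfold hpart
  have : (n.sign : ℤ) + (n - k).sign = 0 := by
    rcases le_total 0 k with hk | hk
    · rw [max_eq_left hk] at h1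
      rw [min_eq_right hk] at h2
      rw [Int.sign_eq_one_of_pos h2, Int.sign_eq_neg_one_of_neg (by omega)]
      norm_num
    · rw [max_eq_right hk] at h1
      rw [min_eq_left hk] at h2
      rw [Int.sign_eq_neg_one_of_neg h1, Int.sign_eq_one_of_pos (by omega)]
      norm_num
  have h' : ((n.sign : ℤ) : ℝ) + (((n - k).sign : ℤ) : ℝ) = 0 := by exact_mod_cast this
  rw [h']
  simp

theorem aj_summable (z : ℝ) (hz : 0 < z) (k m : ℤ) (hm : m ≠ 0) : Summable (aj z k m) := by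
  unfold aj
  apply Summable.mul_left
  rw [← summable_nat_add_iff 1]
  have hs : Summable (fun j : ℕ => 1 / (8 * z ^ 3) * (1 / ((j:ℝ) + 1) ^ 2)) := by
    apply Summable.mul_left
    have := (summable_nat_add_iff 1).2 (Real.summable_one_div_nat_pow.2 (by norm_num : 1 < 2))
    refine this.congr (fun j => ?_)
    push_cast
    rfl
  refine Summable.of_nonneg_of_le ?_ ?_ hs
  · intro j
    have : (0:ℝ) ≤ |(k:ℝ)| := abs_nonneg _
    split_ifs <;> positivity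
  · intro j
    rw [if_neg (by omega)]
    push_cast
    set x : ℝ := |(k:ℝ)| + 2 * ((j:ℝ) + 1) with hx
    have hj : (0:ℝ) ≤ j := Nat.cast_nonneg _
    have hx2 : 2 * ((j:ℝ) + 1) ≤ x := by
      rw [hx]
      have : (0:ℝ) ≤ |(k:ℝ)| := abs_nonneg _
      linarith
    have hx0 : 0 < x := by linarith
    have hm1 : (1:ℝ) ≤ (m:ℝ) ^ 2 := by
      have : (1:ℤ) ≤ m ^ 2 := by
        have := sq_nonneg m
        have h0 : m ^ 2 ≠ 0 := by positivity
        omega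
      exact_mod_cast this
    have hxz : 0 < x * z := mul_pos hx0 hz
    have hge : 2 * (x * z) ≤ (m:ℝ) ^ 2 + x ^ 2 * z ^ 2 := by nlinarith [sq_nonneg (x * z - 1)]
    have hge2 : x ^ 2 * z ^ 2 ≤ (m:ℝ) ^ 2 + x ^ 2 * z ^ 2 := by nlinarith
    have hsq : (x ^ 2 * z ^ 2) * (2 * (x * z)) ≤ ((m:ℝ) ^ 2 + x ^ 2 * z ^ 2) ^ 2 := by
      rw [sq ((m:ℝ) ^ 2 + x ^ 2 * z ^ 2)]
      apply mul_le_mul hge2 hge (by positivity) (by positivity)
    have hden : 0 < (x ^ 2 * z ^ 2) * (2 * (x * z)) := by positivity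
    calc 1 * x / ((m:ℝ) ^ 2 + x ^ 2 * z ^ 2) ^ 2 ≤ 1 * x / ((x ^ 2 * z ^ 2) * (2 * (x * z))) := by
          apply div_le_div_of_nonneg_left (by linarith) hden hsq
      _ = 1 / (2 * z ^ 3) * (1 / x ^ 2) := by
          field_simp
      _ ≤ 1 / (2 * z ^ 3) * (1 / (2 * ((j:ℝ) + 1)) ^ 2) := by
          apply mul_le_mul_of_nonneg_left _ (by positivity)
          apply one_div_le_one_div_of_le (by positivity)
          apply pow_le_pow_left₀ (by positivity) hx2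
      _ = 1 / (8 * z ^ 3) * (1 / ((j:ℝ) + 1) ^ 2) := by
          field_simp
          ring

theorem hpart_hasSum (z : ℝ) (hz : 0 < z) (k m : ℤ) (hm : m ≠ 0) :
    HasSum (hpart z k m) (2 * ∑' j : ℕ, aj z k m j) := by
  have ha := (aj_summable z hz k m hm).hasSum
  set A := ∑' j : ℕ, aj z k m j with hA
  have hr : HasSum (fun n : ℤ => if max k 0 ≤ n then hpart z k m n else 0) A := by
    have hinj : Function.Injective (fun j : ℕ => max k 0 + (j:ℤ)) := by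
      intro a b h
      simpa using h
    rw [← hinj.hasSum_iff]
    · refine ha.congr_fun ?_
      intro j
      simp only [Function.comp]
      rw [if_pos (by omega), h_right]
    · intro n hn
      rw [if_neg]
      intro hle
      apply hn
      refine ⟨(n - max k 0).toNat, ?_⟩
      simp only
      omega
  have hl : HasSum (fun n : ℤ => if n ≤ min k 0 then hpart z k m n else 0) A := by
    have hinj : Function.Injective (fun j : ℕ => min k 0 - (j:ℤ)) := by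
      intro a b h
      simp only at h
      omega
    rw [← hinj.hasSum_iff]
    · refine ha.congr_fun ?_
      intro j
      simp only [Function.comp]
      rw [if_pos (by omega), h_left]
    · intro n hn
      rw [if_neg]
      intro hle
      apply hn
      refine ⟨(min k 0 - n).toNat, ?_⟩
      simp only
      omega
  have := hr.add hl
  rw [← two_mul] at this
  refine this.congr_fun ?_
  intro n
  by_cases h1 : max k 0 ≤ n
  · by_cases h2 : n ≤ min k 0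
    · have hk : k = 0 := by omega
      have hn : n = 0 := by omega
      rw [if_pos h1, if_pos h2, hk, hn]
      simp [hpart]
    · rw [if_pos h1, if_neg h2, add_zero]
  · by_cases h2 : n ≤ min k 0
    · rw [if_neg h1, if_pos h2, zero_add]
    · rw [if_neg h1, if_neg h2, add_zero]
      exact h_mid z k m n (by omega) (by omega)

theorem thm : EC237.ED1 := by
  intro z hz k m hm
  have h1 := hpart_hasSum z hz k m hm
  have h2 : HasSum (fun n : ℤ => if n = 0 then -2 * z ^ 3 * (Real.pi ^ 2 / 9 * ((m:ℝ) / eD z (k, m))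
        + ew1 * (((m:ℝ) ^ 2 - (k:ℝ) ^ 2 * z ^ 2) / eD z (k, m) ^ 2)) else 0)
        (-2 * z ^ 3 * (Real.pi ^ 2 / 9 * ((m:ℝ) / eD z (k, m))
        + ew1 * (((m:ℝ) ^ 2 - (k:ℝ) ^ 2 * z ^ 2) / eD z (k, m) ^ 2))) := by
    exact hasSum_ite_eq (0:ℤ) _
  have h3 : HasSum (fun n : ℤ => if n = k then
        -2 * z ^ 3 * (ew1 * (((m:ℝ) ^ 2 - (k:ℝ) ^ 2 * z ^ 2) / eD z (k, m) ^ 2)) else 0)
        (-2 * z ^ 3 * (ew1 * (((m:ℝ) ^ 2 - (k:ℝ) ^ 2 * z ^ 2) / eD z (k, m) ^ 2))) := by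
    exact hasSum_ite_eq k _
  have h4 := (Complex.hasSum_ofReal.2 ((h1.add h2).add h3)).mul_right Complex.I
  have hval : (((2 * ∑' j : ℕ, aj z k m j + (-2 * z ^ 3 * (Real.pi ^ 2 / 9 * ((m:ℝ) / eD z (k, m))
        + ew1 * (((m:ℝ) ^ 2 - (k:ℝ) ^ 2 * z ^ 2) / eD z (k, m) ^ 2)))
        + (-2 * z ^ 3 * (ew1 * (((m:ℝ) ^ 2 - (k:ℝ) ^ 2 * z ^ 2) / eD z (k, m) ^ 2))) : ℝ) : ℂ)
          * Complex.I) = Complex.I * (z:ℂ) ^ 2 * (eY z (k, m) : ℂ) := by
    have hr : (2 * ∑' j : ℕ, aj z k m j + (-2 * z ^ 3 * (Real.pi ^ 2 / 9 * ((m:ℝ) / eD z (k, m))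
        + ew1 * (((m:ℝ) ^ 2 - (k:ℝ) ^ 2 * z ^ 2) / eD z (k, m) ^ 2)))
        + (-2 * z ^ 3 * (ew1 * (((m:ℝ) ^ 2 - (k:ℝ) ^ 2 * z ^ 2) / eD z (k, m) ^ 2))) : ℝ)
        = z ^ 2 * eY z (k, m) := by
      unfold eY eT aj
      rw [tsum_mul_left]
      simp only
      ring
    rw [hr]
    push_cast
    ring
  rw [hval] at h4
  refine h4.congr_fun ?_
  intro n
  rw [gY0_eq z k m n hm]

end Pool.Agent.Helper17.EC.E_ED1
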